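import Pool.Agent.H390R2.LP.Iface2

open Finset

namespace Pool.Agent.H703R2.LP

open Pool.Agent.H390R2.LP

section site
variable {Ω X : Type} [Fintype Ω] [DecidableEq Ω] (s : Site Ω X)

theorem site_g_eq (c : Ω) : s.g c = ∑ a, s.lam a * (∑ ω, s.u a ω * s.w c ω) ^ 2 := by
  have := s.w_diag c c rfl
  rw [if_pos rfl] at this
  rw [← this]
  refine Finset.sum_congr rfl fun a _ => by ring

theorem site_g_nonneg (c : Ω) : 0 ≤ s.g c := by
  rw [site_g_eq]
  exact Finset.sum_nonneg fun a _ => mul_nonneg (s.lam_nonneg a) (sq_nonneg _)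

theorem site_parseval (v : Ω → ℝ) : ∑ c, (∑ ω, v ω * s.w c ω) ^ 2 = ∑ ω, v ω ^ 2 := by
  set W : Matrix Ω Ω ℝ := Matrix.of s.w with hW
  have h1 : W * W.transpose = 1 := by
    ext a b
    rw [Matrix.mul_apply, Matrix.one_apply]
    simpa [hW] using s.w_orth a b
  have h2 : W.transpose * W = 1 := mul_eq_one_comm.1 h1
  have h3 : (W.mulVec v) ⬝ᵥ (W.mulVec v) = v ⬝ᵥ v := by
    rw [Matrix.dotProduct_mulVec, ← Matrix.mulVec_transpose, Matrix.mulVec_mulVec, h2,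
      Matrix.one_mulVec]
  have h4 : ∑ c, (∑ ω, v ω * s.w c ω) ^ 2 = (W.mulVec v) ⬝ᵥ (W.mulVec v) := by
    simp only [dotProduct, Matrix.mulVec, hW, Matrix.of_apply]
    refine Finset.sum_congr rfl fun c _ => ?_
    rw [sq]
    congr 1 <;> exact Finset.sum_congr rfl fun ω _ => mul_comm _ _
  rw [h4, h3]
  simp only [dotProduct, sq]

theorem site_g_sum : ∑ c, s.g c = 1 := by
  simp_rw [site_g_eq]
  rw [Finset.sum_comm]
  simp_rw [← Finset.mul_sum, site_parseval]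
  have : ∀ a, ∑ ω, s.u a ω ^ 2 = 1 := by
    intro a
    have := s.u_orth a a
    rw [if_pos rfl] at this
    rw [← this]
    exact Finset.sum_congr rfl fun ω _ => sq _
  simp_rw [this, mul_one]
  exact s.lam_sum

theorem site_P_nonneg [DecidableEq X] (x : X) : 0 ≤ s.P x :=
  Finset.sum_nonneg fun c _ => site_g_nonneg s c

theorem site_P_sum [DecidableEq X] [Fintype X] : ∑ x, s.P x = 1 := by
  rw [← site_g_sum s]
  unfold Site.P
  exact Finset.sum_fiberwise _ _ _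

end site

section cheb
variable {X : Type} [Fintype X] [DecidableEq X]

theorem sum_prod_mul {n : ℕ} (P : X → ℝ) (hP : ∑ x, P x = 1) (Y : X → ℝ) (hY : ∑ x, P x * Y x = 0)
    (i j : Fin n) :
    ∑ x : Fin n → X, (∏ k, P (x k)) * (Y (x i) * Y (x j)) =
      if i = j then ∑ x, P x * Y x ^ 2 else 0 := by
  have h1 : ∀ x : Fin n → X, (∏ k, P (x k)) * (Y (x i) * Y (x j)) =
      ∏ k, (P (x k) * ((if k = i then Y (x k) else 1) * (if k = j then Y (x k) else 1))) := by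
    intro x
    rw [Finset.prod_mul_distrib, Finset.prod_mul_distrib]
    simp
  simp_rw [h1]
  rw [← Fintype.prod_sum (fun k a => P a * ((if k = i then Y a else 1) * (if k = j then Y a else 1)))]
  split_ifs with hij
  · subst hij
    rw [Finset.prod_eq_single i]
    · refine Finset.sum_congr rfl fun x _ => ?_
      rw [if_pos rfl, sq]
    · intro k _ hk
      simp [hk, hP]
    · simp
  · apply Finset.prod_eq_zero (Finset.mem_univ i)
    simp [hij, hY]

theorem cheb_var {n : ℕ} (P : X → ℝ) (hP : ∑ x, P x = 1) (Y : X → ℝ) (hY : ∑ x, P x * Y x = 0) :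
    ∑ x : Fin n → X, (∏ k, P (x k)) * (∑ k, Y (x k)) ^ 2 = n * ∑ x, P x * Y x ^ 2 := by
  have h1 : ∀ x : Fin n → X, (∏ k, P (x k)) * (∑ k, Y (x k)) ^ 2 =
      ∑ i, ∑ j, (∏ k, P (x k)) * (Y (x i) * Y (x j)) := by
    intro x
    rw [sq, Finset.sum_mul_sum, Finset.mul_sum]
    refine Finset.sum_congr rfl fun i _ => ?_
    rw [Finset.mul_sum]
  simp_rw [h1]
  rw [Finset.sum_comm]
  have h2 : ∀ i : Fin n, ∑ x : Fin n → X, ∑ j, (∏ k, P (x k)) * (Y (x i) * Y (x j)) =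
      ∑ x, P x * Y x ^ 2 := by
    intro i
    rw [Finset.sum_comm]
    simp_rw [sum_prod_mul P hP Y hY i]
    simp
  simp_rw [h2]
  simp

/-- Chebyshev in product form. -/
theorem cheb {n : ℕ} (hn : 0 < n) (P : X → ℝ) (hP0 : ∀ x, 0 ≤ P x) (hP : ∑ x, P x = 1)
    (Z : X → ℝ) {δ : ℝ} (hδ : 0 < δ) (B : Finset (Fin n → X))
    (hB : ∀ x ∈ B, n * δ ≤ |∑ k, Z (x k) - n * ∑ y, P y * Z y|) :
    ∑ x ∈ B, ∏ k, P (x k) ≤ (∑ y, P y * (Z y - ∑ y', P y' * Z y') ^ 2) / (n * δ ^ 2) := by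
  set m := ∑ y, P y * Z y with hm
  set Y : X → ℝ := fun x => Z x - m with hYdef
  have hY : ∑ x, P x * Y x = 0 := by
    simp only [hYdef, mul_sub, Finset.sum_sub_distrib, ← Finset.sum_mul, hP]
    rw [← hm]; ring
  have hn' : (0:ℝ) < n := by exact_mod_cast hn
  have h1 := cheb_var (n := n) P hP Y hY
  have hpn : ∀ x : Fin n → X, 0 ≤ ∏ k, P (x k) := fun x => Finset.prod_nonneg fun k _ => hP0 _
  have h2 : ∑ x ∈ B, (∏ k, P (x k)) * (n * δ) ^ 2 ≤
      ∑ x : Fin n → X, (∏ k, P (x k)) * (∑ k, Y (x k)) ^ 2 := by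
    calc ∑ x ∈ B, (∏ k, P (x k)) * (n * δ) ^ 2
        ≤ ∑ x ∈ B, (∏ k, P (x k)) * (∑ k, Y (x k)) ^ 2 := by
          apply Finset.sum_le_sum
          intro x hx
          apply mul_le_mul_of_nonneg_left _ (hpn x)
          have h3 : ∑ k, Y (x k) = ∑ k, Z (x k) - n * m := by
            simp [hYdef, Finset.sum_sub_distrib]
          rw [h3, ← sq_abs (_ - _)]
          exact pow_le_pow_left₀ (by positivity) (hB x hx) 2
      _ ≤ _ := Finset.sum_le_sum_of_subset_of_nonneg (Finset.subset_univ _)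
          fun x _ _ => mul_nonneg (hpn x) (sq_nonneg _)
  rw [h1, ← Finset.sum_mul] at h2
  rw [le_div_iff₀ (by positivity)]
  have h4 : (∑ x ∈ B, ∏ k, P (x k)) * (n * δ ^ 2) * n ≤ (∑ x, P x * Y x ^ 2) * n := by
    calc _ = (∑ x ∈ B, ∏ k, P (x k)) * (n * δ) ^ 2 := by ring
      _ ≤ _ := h2
      _ = _ := by ring
  exact le_of_mul_le_mul_right h4 hn'

end cheb

end Pool.Agent.H703R2.LP
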