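import Mathlib

open MeasureTheory Set Metric Real

namespace Pool.Agent.H703R2.LP

theorem gamma_ge {x : ℝ} (hx : 0 < x) : x ^ x * rexp (-x) ≤ Real.Gamma (x + 1) := by
  rw [Real.Gamma_eq_integral (by linarith : (0:ℝ) < x + 1)]
  have hint : IntegrableOn (fun t => rexp (-t) * t ^ (x + 1 - 1)) (Ioi 0) :=
    Real.GammaIntegral_convergent (by linarith : (0:ℝ) < x + 1)
  have hsub : Ioi x ⊆ Ioi (0:ℝ) := Ioi_subset_Ioi hx.le
  calc x ^ x * rexp (-x) = ∫ t in Ioi x, rexp (-t) * x ^ x := by
        rw [integral_mul_const, integral_exp_neg_Ioi, mul_comm]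
    _ ≤ ∫ t in Ioi x, rexp (-t) * t ^ (x + 1 - 1) := by
        apply setIntegral_mono_on
        · exact (integrableOn_exp_neg_Ioi x).mul_const _
        · exact hint.mono_set hsub
        · exact measurableSet_Ioi
        · intro t ht
          have ht' : x < t := ht
          apply mul_le_mul_of_nonneg_left _ (exp_pos _).le
          rw [add_sub_cancel_right]
          exact Real.rpow_le_rpow hx.le ht'.le hx.le
    _ ≤ ∫ t in Ioi 0, rexp (-t) * t ^ (x + 1 - 1) := by
        apply setIntegral_mono_set hint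
        · filter_upwards [ae_restrict_mem measurableSet_Ioi] with t ht
          have ht' : (0:ℝ) < t := ht
          positivity
        · exact Filter.Eventually.of_forall hsub

/-- volume of the ball of radius `β √n` -/
theorem volume_ball_le {n : ℕ} (hn : 0 < n) {β : ℝ} (hβ : 0 < β) :
    (volume (ball (0 : EuclideanSpace ℝ (Fin n)) (β * √n))).toReal ≤
      rexp (n * (1 / 2 * log (2 * π * rexp 1) + log β)) := by
  have : Nonempty (Fin n) := ⟨⟨0, hn⟩⟩
  have hn' : (0:ℝ) < n := by exact_mod_cast hn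
  rw [EuclideanSpace.volume_ball, ENNReal.toReal_mul, ENNReal.toReal_pow,
    ENNReal.toReal_ofReal (by positivity), ENNReal.toReal_ofReal (by positivity)]
  simp only [Fintype.card_fin]
  have hg := gamma_ge (x := (n:ℝ) / 2) (by positivity)
  have hgpos : 0 < ((n:ℝ)/2) ^ ((n:ℝ)/2) * rexp (-((n:ℝ)/2)) := by positivity
  have h1 : √π ^ n / Real.Gamma ((n:ℝ) / 2 + 1) ≤
      √π ^ n / (((n:ℝ)/2) ^ ((n:ℝ)/2) * rexp (-((n:ℝ)/2))) :=
    div_le_div_of_nonneg_left (by positivity) hgpos hg
  refine (mul_le_mul_of_nonneg_left h1 (by positivity)).trans (le_of_eq ?_)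
  have e1 : (β * √n) ^ n = rexp (n * (log β + 1/2 * log n)) := by
    rw [← Real.rpow_natCast, Real.rpow_def_of_pos (by positivity), Real.log_mul hβ.ne' (by positivity),
      Real.log_sqrt hn'.le]
    congr 1; ring
  have e2 : √π ^ n = rexp (n * (1/2 * log π)) := by
    rw [← Real.rpow_natCast, Real.rpow_def_of_pos (by positivity), Real.log_sqrt pi_pos.le]
    congr 1; ring
  have e3 : ((n:ℝ)/2) ^ ((n:ℝ)/2) = rexp (n * (1/2 * (log n - log 2))) := by
    rw [Real.rpow_def_of_pos (by positivity), Real.log_div hn'.ne' (by norm_num)]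
    congr 1; ring
  have e4 : log (2 * π * rexp 1) = log 2 + log π + 1 := by
    rw [Real.log_mul (by positivity) (by positivity), Real.log_mul (by norm_num) pi_pos.ne',
      Real.log_exp]
  rw [e1, e2, e3, e4, ← Real.exp_add, ← Real.exp_sub, ← Real.exp_add]
  congr 1; ring

end Pool.Agent.H703R2.LP
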