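import Mathlib

open MeasureTheory Set Metric
open scoped ENNReal

namespace Pool.Agent.H703R2.LP

abbrev EE (n : ℕ) := EuclideanSpace ℝ (Fin n)
noncomputable abbrev GG (n : ℕ) := unitary (EE n →L[ℝ] EE n)

variable {n : ℕ}

instance : ContinuousStar (EE n →L[ℝ] EE n) :=
  ⟨by
    have := (ContinuousLinearMap.adjoint (𝕜 := ℝ) (E := EE n) (F := EE n)).continuous
    exact this⟩

instance : CompactSpace (GG n) := by
  have hb : Bornology.IsBounded ((unitary (EE n →L[ℝ] EE n) : Submonoid _) : Set (EE n →L[ℝ] EE n)) := by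
    rw [isBounded_iff_forall_norm_le]
    refine ⟨1, fun x hx => ?_⟩
    refine ContinuousLinearMap.opNorm_le_bound _ zero_le_one fun y => ?_
    have := (Unitary.linearIsometryEquiv (⟨x, hx⟩ : unitary (EE n →L[ℝ] EE n))).norm_map y
    rw [one_mul]
    exact this.le
  exact isCompact_iff_compactSpace.1 (isCompact_of_isClosed_isBounded isClosed_unitary hb)

example : ContinuousMul (EE n →L[ℝ] EE n) := inferInstance
example : IsTopologicalGroup (unitary (EE n →L[ℝ] EE n)) := inferInstance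
example : IsTopologicalGroup (GG n) := inferInstance
noncomputable example : MeasurableSpace (GG n) := inferInstance
example : BorelSpace (GG n) := inferInstance
example : SecondCountableTopology (GG n) := inferInstance

/-- the linear isometry given by an element of the group -/
noncomputable def act (g : GG n) : EE n ≃ₗᵢ[ℝ] EE n := Unitary.linearIsometryEquiv g

theorem act_apply (g : GG n) (x : EE n) : act g x = (g : EE n →L[ℝ] EE n) x := rfl

theorem act_mul (g h : GG n) (x : EE n) : act (g * h) x = act g (act h x) := rfl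

theorem act_inv_mul (g h : GG n) (x : EE n) : act (g⁻¹ * h)⁻¹ x = act h⁻¹ (act g x) := by
  rw [mul_inv_rev, inv_inv]; rfl

theorem exists_act {c c' : EE n} (h : ‖c‖ = ‖c'‖) : ∃ g : GG n, act g c = c' := by
  refine ⟨Unitary.linearIsometryEquiv.symm ((ℝ ∙ (c - c'))ᗮ.reflection), ?_⟩
  simp only [act, MulEquiv.apply_symm_apply]
  exact Submodule.reflection_sub h

theorem continuous_act : Continuous fun p : GG n × EE n => act p.1 p.2 := by
  simp only [act_apply]
  fun_prop

/-- the open shell -/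
def shell (n : ℕ) (a b : ℝ) : Set (EE n) := {y | a < ‖y‖ ∧ ‖y‖ < b}

theorem isOpen_shell (a b : ℝ) : IsOpen (shell n a b) :=
  (isOpen_lt continuous_const continuous_norm).inter (isOpen_lt continuous_norm continuous_const)

/-- radial measure restricted to `(a, b)` -/
noncomputable def rad (n : ℕ) (a b : ℝ) : Measure (Ioi (0:ℝ)) :=
  (Measure.volumeIoiPow (n - 1)).restrict {r | a < r.1 ∧ r.1 < b}

noncomputable def sph (n : ℕ) : Measure (sphere (0 : EE n) 1) := (volume : Measure (EE n)).toSphere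

instance : IsFiniteMeasure (sph n) := by unfold sph; infer_instance

theorem polar_set (hn : 0 < n) {B : Set (EE n)} (hB : MeasurableSet B) :
    ((sph n).prod (Measure.volumeIoiPow (n - 1)))
      {p : sphere (0 : EE n) 1 × Ioi (0:ℝ) | (p.2 : ℝ) • (p.1 : EE n) ∈ B} = volume B := by
  have : Nonempty (Fin n) := ⟨⟨0, hn⟩⟩
  have : Nontrivial (EE n) := inferInstance
  have h := (volume : Measure (EE n)).measurePreserving_homeomorphUnitSphereProd
  have hfr : Module.finrank ℝ (EE n) = n := by simp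
  rw [hfr] at h
  have hmeas : MeasurableSet {p : sphere (0 : EE n) 1 × Ioi (0:ℝ) | (p.2 : ℝ) • (p.1 : EE n) ∈ B} := by
    apply measurableSet_preimage _ hB
    fun_prop
  have h2 := h.measure_preimage hmeas.nullMeasurableSet
  unfold sph
  rw [← h2, (MeasurableEmbedding.subtype_coe (measurableSet_singleton _).compl).comap_apply]
  have h3 : (Subtype.val '' (homeomorphUnitSphereProd (EE n) ⁻¹'
      {p : sphere (0 : EE n) 1 × Ioi (0:ℝ) | (p.2 : ℝ) • (p.1 : EE n) ∈ B})) = B ∩ {0}ᶜ := by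
    ext y
    simp only [mem_image, mem_preimage, mem_ofPred_eq, Subtype.exists, mem_inter_iff]
    constructor
    · rintro ⟨z, hz, hz2, rfl⟩
      refine ⟨?_, hz⟩
      have : ‖z‖ ≠ 0 := norm_ne_zero_iff.2 hz
      simpa [homeomorphUnitSphereProd, smul_smul, this] using hz2
    · rintro ⟨hy, hy0⟩
      refine ⟨y, hy0, ?_, rfl⟩
      have : ‖y‖ ≠ 0 := norm_ne_zero_iff.2 hy0
      simpa [homeomorphUnitSphereProd, smul_smul, this] using hy
  rw [h3]
  rw [← sdiff_eq]
  exact measure_sdiff_null (measure_singleton _)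

theorem polar_rad (hn : 0 < n) {a b : ℝ} {A : Set (EE n)} (hA : MeasurableSet A) :
    ((sph n).prod (rad n a b))
      {p : sphere (0 : EE n) 1 × Ioi (0:ℝ) | (p.2 : ℝ) • (p.1 : EE n) ∈ A} =
      volume (A ∩ shell n a b) := by
  rw [← polar_set hn (hA.inter (isOpen_shell a b).measurableSet)]
  have h1 : (sph n).prod (rad n a b) = ((sph n).prod (Measure.volumeIoiPow (n - 1))).restrict
      (univ ×ˢ {r : Ioi (0:ℝ) | a < r.1 ∧ r.1 < b}) := by
    unfold rad
    rw [← Measure.prod_restrict, Measure.restrict_univ]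
  rw [h1, Measure.restrict_apply]
  · congr 1
    ext ⟨c, r⟩
    have hr : |(r : ℝ)| = r := abs_of_pos r.2
    simp [shell, norm_smul, hr]
  · apply measurableSet_preimage _ hA
    fun_prop

noncomputable def haarG (n : ℕ) : Measure (GG n) := Measure.haar

instance : IsFiniteMeasure (haarG n) := by unfold haarG; infer_instance
instance : (haarG n).IsMulLeftInvariant := by unfold haarG; infer_instance
instance : (haarG n).IsHaarMeasure := by unfold haarG; infer_instance

instance {a b : ℝ} : SFinite (rad n a b) := by unfold rad; infer_instance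

/-- measure on the parameter space -/
noncomputable def kap (n : ℕ) (a b : ℝ) : Measure (GG n × Ioi (0:ℝ)) := (haarG n).prod (rad n a b)

/-- rotated and scaled vector -/
noncomputable def phi (c : EE n) (ω : GG n × Ioi (0:ℝ)) : EE n := (ω.2 : ℝ) • act ω.1⁻¹ c

theorem continuous_phi : Continuous fun p : EE n × (GG n × Ioi (0:ℝ)) => phi p.1 p.2 := by
  unfold phi
  have h1 : Continuous fun p : EE n × (GG n × Ioi (0:ℝ)) => act (p.2.1)⁻¹ p.1 :=
    continuous_act.comp ((continuous_fst.comp continuous_snd).inv.prodMk continuous_fst)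
  exact (continuous_subtype_val.comp (continuous_snd.comp continuous_snd)).smul h1

theorem measurable_phi (c : EE n) : Measurable (phi c) :=
  (continuous_phi.comp (continuous_const.prodMk continuous_id)).measurable

theorem kap_eq_of_norm_eq {c c' : EE n} (h : ‖c‖ = ‖c'‖) {a b : ℝ} {A : Set (EE n)}
    (hA : MeasurableSet A) : kap n a b (phi c' ⁻¹' A) = kap n a b (phi c ⁻¹' A) := by
  obtain ⟨g0, hg0⟩ := exists_act h
  unfold kap
  rw [Measure.prod_apply_symm (measurable_phi c' hA), Measure.prod_apply_symm (measurable_phi c hA)]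
  congr 1
  ext r
  have : ((fun x => (x, r)) ⁻¹' (phi c' ⁻¹' A) : Set (GG n)) =
      (fun x => g0⁻¹ * x) ⁻¹' ((fun x => (x, r)) ⁻¹' (phi c ⁻¹' A)) := by
    ext g
    simp only [mem_preimage, phi]
    rw [act_inv_mul, hg0]
  rw [this, measure_preimage_mul]

theorem lint_kap (hn : 0 < n) {a b : ℝ} {A : Set (EE n)} (hA : MeasurableSet A) :
    ∫⁻ c : sphere (0 : EE n) 1, kap n a b (phi (c : EE n) ⁻¹' A) ∂(sph n) =
      haarG n univ * volume (A ∩ shell n a b) := by
  have h1 : ∀ c : sphere (0 : EE n) 1, kap n a b (phi (c : EE n) ⁻¹' A) =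
      ∫⁻ g, rad n a b {r | phi (c : EE n) (g, r) ∈ A} ∂(haarG n) := by
    intro c
    unfold kap
    rw [Measure.prod_apply (measurable_phi _ hA)]
    rfl
  simp_rw [h1]
  rw [lintegral_lintegral_swap]
  · have h2 : ∀ g : GG n, ∫⁻ c : sphere (0 : EE n) 1, rad n a b {r | phi (c : EE n) (g, r) ∈ A} ∂(sph n)
        = volume (A ∩ shell n a b) := by
      intro g
      have hgm : MeasurableSet ((act g⁻¹ : EE n → EE n) ⁻¹' A) :=
        measurableSet_preimage (act g⁻¹).continuous.measurable hA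
      have h3 := polar_rad (n := n) hn (a := a) (b := b) hgm
      rw [Measure.prod_apply] at h3
      · have h4 : ((act g⁻¹ : EE n → EE n) ⁻¹' A) ∩ shell n a b =
            (act g⁻¹ : EE n → EE n) ⁻¹' (A ∩ shell n a b) := by
          ext y; simp [shell]
        rw [h4, (act g⁻¹).measurePreserving.measure_preimage
          (hA.inter (isOpen_shell a b).measurableSet).nullMeasurableSet] at h3
        rw [← h3]
        congr 1
        ext c
        congr 1
        ext r
        simp [phi]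
      · apply measurableSet_preimage _ hgm
        fun_prop
    simp_rw [h2]
    rw [lintegral_const, mul_comm]
  · have hm : MeasurableSet {p : (sphere (0 : EE n) 1 × GG n) × Ioi (0:ℝ) |
        phi (p.1.1 : EE n) (p.1.2, p.2) ∈ A} := by
      have hcont : Continuous fun p : (sphere (0 : EE n) 1 × GG n) × Ioi (0:ℝ) =>
          ((p.1.1 : EE n), ((p.1.2, p.2) : GG n × Ioi (0:ℝ))) := by fun_prop
      exact measurableSet_preimage (continuous_phi.comp hcont).measurable hA
    exact (measurable_measure_prodMk_left hm).aemeasurable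

theorem kap_phi (hn : 0 < n) {a b : ℝ} {A : Set (EE n)} (hA : MeasurableSet A) {c : EE n}
    (hc : ‖c‖ = 1) :
    kap n a b (phi c ⁻¹' A) * sph n univ = haarG n univ * volume (A ∩ shell n a b) := by
  rw [← lint_kap hn hA]
  have h1 : ∀ c' : sphere (0 : EE n) 1, kap n a b (phi (c' : EE n) ⁻¹' A) =
      kap n a b (phi c ⁻¹' A) := fun c' =>
    kap_eq_of_norm_eq (by rw [hc]; exact (norm_eq_of_mem_sphere c').symm) hA
  simp_rw [h1]
  rw [lintegral_const]

/-- grid cell -/
def cell {q : ℕ} (a0 hg : ℝ) (x : Fin n → Fin q) : Set (EE n) :=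
  {y | ∀ k, a0 + hg * (x k : ℝ) ≤ y k ∧ y k < a0 + hg * ((x k : ℝ) + 1)}

theorem measurableSet_cell {q : ℕ} (a0 hg : ℝ) (x : Fin n → Fin q) :
    MeasurableSet (cell a0 hg x) := by
  unfold cell
  simp only [ofPred_forall]
  refine MeasurableSet.iInter fun k => ?_
  have hk : Measurable fun y : EE n => y k := by fun_prop
  exact (measurableSet_le measurable_const hk).inter (measurableSet_lt hk measurable_const)

theorem volume_cell {q : ℕ} {a0 hg : ℝ} (hhg : 0 < hg) (x : Fin n → Fin q) :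
    volume (cell a0 hg x) = ENNReal.ofReal (hg ^ n) := by
  have h := PiLp.volume_preserving_ofLp (Fin n)
  have h2 : cell a0 hg x = (WithLp.ofLp (p := 2) (V := Fin n → ℝ)) ⁻¹'
      (Set.pi univ fun k => Ico (a0 + hg * (x k : ℝ)) (a0 + hg * ((x k : ℝ) + 1))) := by
    ext y
    simp [cell, Set.mem_pi]
  rw [h2, h.measure_preimage (MeasurableSet.univ_pi fun k => measurableSet_Ico).nullMeasurableSet,
    volume_pi_pi]
  simp only [Real.volume_Ico]
  have h3 : ∀ k : Fin n, a0 + hg * ((x k : ℝ) + 1) - (a0 + hg * (x k : ℝ)) = hg := by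
    intro k; ring
  simp only [h3, Finset.prod_const, Finset.card_univ, Fintype.card_fin]
  rw [ENNReal.ofReal_pow hhg.le]

theorem cell_disjoint {q : ℕ} {a0 hg : ℝ} (hhg : 0 < hg) {x x' : Fin n → Fin q} {y : EE n}
    (h : y ∈ cell a0 hg x) (h' : y ∈ cell a0 hg x') : x = x' := by
  funext k
  have h1 := h k
  have h2 := h' k
  apply Fin.ext
  have h3 : (x k : ℝ) < (x' k : ℝ) + 1 := by
    by_contra hcon
    push Not at hcon
    nlinarith [h1.1, h2.2]
  have h4 : (x' k : ℝ) < (x k : ℝ) + 1 := by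
    by_contra hcon
    push Not at hcon
    nlinarith [h2.1, h1.2]
  have h5 : (x k : ℕ) < (x' k : ℕ) + 1 := by exact_mod_cast h3
  have h6 : (x' k : ℕ) < (x k : ℕ) + 1 := by exact_mod_cast h4
  omega

theorem rad_compl (a b : ℝ) : rad n a b {r | ¬ (a < r.1 ∧ r.1 < b)} = 0 := by
  unfold rad
  rw [Measure.restrict_apply]
  · have : {r : Ioi (0:ℝ) | ¬ (a < r.1 ∧ r.1 < b)} ∩ {r | a < r.1 ∧ r.1 < b} = ∅ := by
      ext r; simp
    rw [this, measure_empty]
  · have h1 : MeasurableSet {r : Ioi (0:ℝ) | a < r.1 ∧ r.1 < b} :=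
      ((isOpen_lt continuous_const continuous_subtype_val).inter
        (isOpen_lt continuous_subtype_val continuous_const)).measurableSet
    exact h1.compl

theorem kap_compl (a b : ℝ) : kap n a b {ω | ¬ (a < ω.2.1 ∧ ω.2.1 < b)} = 0 := by
  have : {ω : GG n × Ioi (0:ℝ) | ¬ (a < ω.2.1 ∧ ω.2.1 < b)} =
      univ ×ˢ {r | ¬ (a < r.1 ∧ r.1 < b)} := by
    ext ω; simp
  rw [this]
  unfold kap
  rw [Measure.prod_prod, rad_compl, mul_zero]

theorem rad_univ_lt {a b : ℝ} (hb : 0 < b) : rad n a b univ < ∞ := by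
  unfold rad
  rw [Measure.restrict_apply_univ]
  have h1 : {r : Ioi (0:ℝ) | a < r.1 ∧ r.1 < b} ⊆ Iio (⟨b, hb⟩ : Ioi (0:ℝ)) := fun r hr => hr.2
  refine (measure_mono h1).trans_lt ?_
  rw [Measure.volumeIoiPow_apply_Iio]
  exact ENNReal.ofReal_lt_top

theorem kap_univ_lt {a b : ℝ} (hb : 0 < b) : kap n a b univ < ∞ := by
  unfold kap
  rw [← univ_prod_univ, Measure.prod_prod]
  exact ENNReal.mul_lt_top (measure_lt_top _ _) (rad_univ_lt hb)

open Classical in
/-- the grid points whose cell is hit by the rotated and scaled code -/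
noncomputable def hit {q : ℕ} (C : Finset (EE n)) (a0 hg : ℝ) (ω : GG n × Ioi (0:ℝ)) :
    Finset (Fin n → Fin q) :=
  Finset.univ.filter fun x => ∃ c ∈ C, phi c ω ∈ cell a0 hg x

theorem mem_hit {q : ℕ} {C : Finset (EE n)} {a0 hg : ℝ} {ω : GG n × Ioi (0:ℝ)}
    {x : Fin n → Fin q} : x ∈ hit C a0 hg ω ↔ ∃ c ∈ C, phi c ω ∈ cell a0 hg x := by
  simp [hit]

theorem measurableSet_mem_hit {q : ℕ} (C : Finset (EE n)) (a0 hg : ℝ) (x : Fin n → Fin q) :
    MeasurableSet {ω | x ∈ hit C a0 hg ω} := by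
  have : {ω | x ∈ hit C a0 hg ω} = ⋃ c ∈ C, phi c ⁻¹' (cell a0 hg x) := by
    ext ω; simp [mem_hit]
  rw [this]
  exact Finset.measurableSet_biUnion _ fun c _ => measurable_phi c (measurableSet_cell _ _ _)

theorem measurableSet_hit_eq {q : ℕ} (C : Finset (EE n)) (a0 hg : ℝ)
    (T : Finset (Fin n → Fin q)) : MeasurableSet {ω | hit C a0 hg ω = T} := by
  have : {ω | hit C a0 hg ω = T} = ⋂ x, {ω | x ∈ hit C a0 hg ω ↔ x ∈ T} := by
    ext ω; simp [Finset.ext_iff]
  rw [this]
  refine MeasurableSet.iInter fun x => ?_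
  by_cases hx : x ∈ T
  · simpa [hx] using measurableSet_mem_hit C a0 hg x
  · have h2 : {ω | x ∈ hit C a0 hg ω ↔ x ∈ T} = {ω | x ∈ hit C a0 hg ω}ᶜ := by
      ext ω; simp [hx]
    rw [h2]
    exact (measurableSet_mem_hit C a0 hg x).compl

theorem norm_phi_sub (c c' : EE n) (ω : GG n × Ioi (0:ℝ)) :
    ‖phi c ω - phi c' ω‖ = ω.2.1 * ‖c - c'‖ := by
  unfold phi
  rw [← smul_sub, norm_smul, Real.norm_of_nonneg (le_of_lt ω.2.2), ← map_sub,
    LinearIsometryEquiv.norm_map]

theorem norm_le_of_coord {v : EE n} {h : ℝ} (hh : 0 ≤ h) (hv : ∀ k, |v k| ≤ h) :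
    ‖v‖ ≤ h * √n := by
  rw [EuclideanSpace.norm_eq]
  have : ∑ i, ‖v i‖ ^ 2 ≤ n * h ^ 2 := by
    calc ∑ i, ‖v i‖ ^ 2 ≤ ∑ i : Fin n, h ^ 2 := by
          apply Finset.sum_le_sum
          intro i _
          rw [Real.norm_eq_abs]
          exact pow_le_pow_left₀ (abs_nonneg _) (hv i) 2
      _ = n * h ^ 2 := by simp
  calc √(∑ i, ‖v i‖ ^ 2) ≤ √(n * h ^ 2) := Real.sqrt_le_sqrt this
    _ = h * √n := by
      rw [Real.sqrt_mul (Nat.cast_nonneg n), Real.sqrt_sq hh, mul_comm]

theorem hit_dist {q : ℕ} {C : Finset (EE n)} {s a b a0 hg : ℝ}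
    (hs : ∀ c ∈ C, ∀ c' ∈ C, c ≠ c' → s ≤ dist c c') (hhg : 0 < hg) (hs0 : 0 ≤ s)
    (hgs : hg * √n < a * s) {ω : GG n × Ioi (0:ℝ)} (hω : a < ω.2.1 ∧ ω.2.1 < b)
    {x y : Fin n → Fin q} (hx : x ∈ hit C a0 hg ω) (hy : y ∈ hit C a0 hg ω) (hxy : x ≠ y) :
    (a * s - hg * √n) ^ 2 ≤ ∑ k, (hg * (x k : ℝ) - hg * (y k : ℝ)) ^ 2 := by
  rw [mem_hit] at hx hy
  obtain ⟨c, hc, hcx⟩ := hx
  obtain ⟨c', hc', hcy⟩ := hy
  have hne : c ≠ c' := by
    rintro rfl
    exact hxy (cell_disjoint hhg hcx hcy)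
  have h1 : s ≤ ‖c - c'‖ := by rw [← dist_eq_norm]; exact hs c hc c' hc' hne
  have h2 : a * s ≤ ‖phi c ω - phi c' ω‖ := by
    rw [norm_phi_sub]
    exact mul_le_mul hω.1.le h1 hs0 (le_of_lt ω.2.2)
  set X : EE n := WithLp.toLp 2 fun k => hg * (x k : ℝ) - hg * (y k : ℝ) with hX
  have h3 : ‖(phi c ω - phi c' ω) - X‖ ≤ hg * √n := by
    apply norm_le_of_coord hhg.le
    intro k
    have e1 := hcx k
    have e2 := hcy k
    have e3 : ((phi c ω - phi c' ω) - X) k =
        phi c ω k - phi c' ω k - (hg * (x k : ℝ) - hg * (y k : ℝ)) := by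
      simp [hX]
    rw [e3, abs_le]
    constructor <;> nlinarith [e1.1, e1.2, e2.1, e2.2]
  have h4 : a * s - hg * √n ≤ ‖X‖ := by
    have := norm_sub_norm_le (phi c ω - phi c' ω) X
    linarith
  have h5 : ‖X‖ ^ 2 = ∑ k, (hg * (x k : ℝ) - hg * (y k : ℝ)) ^ 2 := by
    rw [EuclideanSpace.norm_sq_eq]
    simp [hX]
  rw [← h5]
  exact pow_le_pow_left₀ (by linarith) h4 2

/-- **Covering of a shell by rotated and scaled copies of a spherical code.** -/
theorem shell_cover {q : ℕ} (hn : 0 < n) (C : Finset (EE n)) (hC : C.Nonempty)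
    (hu : ∀ c ∈ C, ‖c‖ = 1) {s a b a0 hg : ℝ} (hs0 : 0 ≤ s)
    (hs : ∀ c ∈ C, ∀ c' ∈ C, c ≠ c' → s ≤ dist c c') (hb : 0 < b)
    (hhg : 0 < hg) (hgs : hg * √n < a * s) :
    ∃ w : Finset (Fin n → Fin q) → ℝ, (∀ S, 0 ≤ w S) ∧
      (∀ x, ∑ S ∈ Finset.univ.filter (fun S : Finset (Fin n → Fin q) => x ∈ S), w S =
        (volume (cell a0 hg x ∩ shell n a b)).toReal / hg ^ n) ∧
      (∀ S, w S ≠ 0 → ∀ x ∈ S, ∀ y ∈ S, x ≠ y →
        (a * s - hg * √n) ^ 2 ≤ ∑ k, (hg * (x k : ℝ) - hg * (y k : ℝ)) ^ 2) ∧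
      ∑ S, w S = (volume (shell n a b)).toReal / (C.card * hg ^ n) := by
  set K := kap n a b with hK
  have : IsFiniteMeasure K := ⟨kap_univ_lt hb⟩
  set σ := (sph n univ).toReal with hσ
  set mu := (haarG n univ).toReal with hmu
  have hNe : Nonempty (Fin n) := ⟨⟨0, hn⟩⟩
  have hNt : Nontrivial (EE n) := inferInstance
  have hσ0 : 0 < σ := by
    rw [hσ, ENNReal.toReal_pos_iff]
    refine ⟨?_, measure_lt_top _ _⟩
    rw [pos_iff_ne_zero]
    intro h
    have h2 : sph n = 0 := Measure.measure_univ_eq_zero.1 h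
    unfold sph at h2
    exact Measure.toSphere_ne_zero _ h2
  have hmu0 : 0 < mu := by
    rw [hmu, ENNReal.toReal_pos_iff]
    refine ⟨?_, measure_lt_top _ _⟩
    rw [pos_iff_ne_zero]
    exact isOpen_univ.measure_ne_zero _ univ_nonempty
  have hN0 : (0:ℝ) < C.card := by exact_mod_cast hC.card_pos
  have hgn : 0 < hg ^ n := pow_pos hhg n
  set κ := σ / (mu * C.card * hg ^ n) with hκ
  have hκ0 : 0 < κ := by positivity
  -- the basic formula
  have hphi : ∀ c ∈ C, ∀ A : Set (EE n), MeasurableSet A →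
      (K (phi c ⁻¹' A)).toReal * σ = mu * (volume (A ∩ shell n a b)).toReal := by
    intro c hc A hA
    have h1 := congrArg ENNReal.toReal (kap_phi hn (a := a) (b := b) hA (hu c hc))
    rw [ENNReal.toReal_mul, ENNReal.toReal_mul] at h1
    exact h1
  refine ⟨fun T => (K {ω | hit C a0 hg ω = T}).toReal * κ, fun T => by positivity, ?_, ?_, ?_⟩
  · intro x
    rw [← Finset.sum_mul]
    have h1 : ∑ T ∈ Finset.univ.filter (fun S : Finset (Fin n → Fin q) => x ∈ S),
        (K {ω | hit C a0 hg ω = T}).toReal = (K {ω | x ∈ hit C a0 hg ω}).toReal := by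
      have h2 : {ω | x ∈ hit C a0 hg ω} =
          ⋃ T ∈ Finset.univ.filter (fun S : Finset (Fin n → Fin q) => x ∈ S),
            {ω | hit C a0 hg ω = T} := by
        ext ω; simp
      rw [h2, measure_biUnion_finset, ENNReal.toReal_sum]
      · intro T _; exact measure_ne_top _ _
      · intro T _ T' _ hne
        refine Set.disjoint_left.2 fun ω h1 h2 => hne ?_
        exact h1.symm.trans h2
      · intro T _; exact measurableSet_hit_eq C a0 hg T
    have h3 : (K {ω | x ∈ hit C a0 hg ω}).toReal =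
        ∑ c ∈ C, (K (phi c ⁻¹' (cell a0 hg x))).toReal := by
      have h2 : {ω | x ∈ hit C a0 hg ω} = ⋃ c ∈ C, phi c ⁻¹' (cell a0 hg x) := by
        ext ω; simp [mem_hit]
      rw [h2, measure_biUnion_finset₀, ENNReal.toReal_sum]
      · intro T _; exact measure_ne_top _ _
      · intro c hc c' hc' hne
        refine measure_mono_null ?_ (kap_compl a b)
        rintro ω ⟨h4, h5⟩ hω
        have h6 : ‖phi c ω - phi c' ω‖ ≤ hg * √n := by
          apply norm_le_of_coord hhg.le
          intro k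
          have e1 := h4 k
          have e2 := h5 k
          simp only [PiLp.sub_apply]
          rw [abs_le]
          constructor <;> nlinarith [e1.1, e1.2, e2.1, e2.2]
        rw [norm_phi_sub] at h6
        have h7 : s ≤ ‖c - c'‖ := by rw [← dist_eq_norm]; exact hs c hc c' hc' hne
        have h8 : a * s ≤ ω.2.1 * ‖c - c'‖ := mul_le_mul hω.1.le h7 hs0 (le_of_lt ω.2.2)
        linarith
      · intro c _; exact (measurable_phi c (measurableSet_cell _ _ _)).nullMeasurableSet
    rw [h1, h3, hκ, Finset.sum_mul]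
    have h9 : ∀ c ∈ C, (K (phi c ⁻¹' (cell a0 hg x))).toReal * (σ / (mu * C.card * hg ^ n)) =
        (volume (cell a0 hg x ∩ shell n a b)).toReal / (C.card * hg ^ n) := by
      intro c hc
      have := hphi c hc _ (measurableSet_cell a0 hg x)
      rw [mul_div_assoc', this]
      field_simp
    rw [Finset.sum_congr rfl h9, Finset.sum_const, nsmul_eq_mul]
    field_simp
  · intro T hT x hx y hy hxy
    have h1 : K {ω | hit C a0 hg ω = T} ≠ 0 := by
      intro h; apply hT; simp [h]
    have h2 : ∃ ω, hit C a0 hg ω = T ∧ (a < ω.2.1 ∧ ω.2.1 < b) := by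
      by_contra hcon
      push Not at hcon
      apply h1
      refine measure_mono_null ?_ (kap_compl a b)
      intro ω hω hω2
      exact absurd hω2.2 (not_lt.2 (hcon ω hω hω2.1))
    obtain ⟨ω, hω, hω2⟩ := h2
    subst hω
    exact hit_dist hs hhg hs0 hgs hω2 hx hy hxy
  · rw [← Finset.sum_mul]
    have h1 : ∑ T : Finset (Fin n → Fin q), (K {ω | hit C a0 hg ω = T}).toReal =
        (K univ).toReal := by
      have h2 : (univ : Set (GG n × Ioi (0:ℝ))) =
          ⋃ T ∈ (Finset.univ : Finset (Finset (Fin n → Fin q))), {ω | hit C a0 hg ω = T} := by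
        ext ω; simp
      rw [h2, measure_biUnion_finset, ENNReal.toReal_sum]
      · intro T _; exact measure_ne_top _ _
      · intro T _ T' _ hne
        refine Set.disjoint_left.2 fun ω h1 h2 => hne ?_
        exact h1.symm.trans h2
      · intro T _; exact measurableSet_hit_eq C a0 hg T
    obtain ⟨c, hc⟩ := hC
    have h2 := hphi c hc univ MeasurableSet.univ
    rw [preimage_univ, univ_inter] at h2
    rw [h1, hκ, mul_div_assoc', h2]
    field_simp

end Pool.Agent.H703R2.LP
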