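import Pool.Agent.H703R2.LP.Cheb
import Pool.Agent.H703R2.LP.Shell
import Pool.Agent.H703R2.LP.Ball

open MeasureTheory Set Metric Real
open scoped ENNReal

namespace Pool.Agent.H703R2.LP

open Pool.Agent.H390R2.LP

/-- cells of typical grid points lie in the shell -/
theorem cell_subset_shell {n q : ℕ} (hn : 0 < n) {a0 hg α β δ M2 : ℝ} (hhg : 0 < hg)
    (hβ0 : hg ≤ β) (h1 : (α + hg) ^ 2 ≤ M2 - δ) (h2 : M2 + δ ≤ (β - hg) ^ 2)
    (x : Fin n → Fin q)
    (hx : |∑ k, (a0 + hg * (x k : ℝ)) ^ 2 - n * M2| < n * δ) :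
    cell a0 hg x ⊆ shell n (α * √n) (β * √n) := by
  intro y hy
  have hn' : (0:ℝ) < n := by exact_mod_cast hn
  have hsn : 0 < √(n:ℝ) := Real.sqrt_pos.2 hn'
  have hsq : √(n:ℝ) ^ 2 = n := Real.sq_sqrt hn'.le
  set z : EE n := WithLp.toLp 2 fun k => a0 + hg * (x k : ℝ) with hz
  have hz2 : ‖z‖ ^ 2 = ∑ k, (a0 + hg * (x k : ℝ)) ^ 2 := by
    rw [EuclideanSpace.norm_sq_eq]
    simp [hz]
  have hyz : ‖y - z‖ ≤ hg * √n := by
    apply norm_le_of_coord hhg.le
    intro k
    have e1 := hy k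
    have e3 : (y - z) k = y k - (a0 + hg * (x k : ℝ)) := by simp [hz]
    rw [e3, abs_le]
    constructor <;> nlinarith [e1.1, e1.2]
  rw [abs_lt, ← hz2] at hx
  have hlow : (α + hg) * √n < ‖z‖ := by
    apply lt_of_pow_lt_pow_left₀ 2 (norm_nonneg z)
    rw [mul_pow, hsq]
    nlinarith
  have hup : ‖z‖ < (β - hg) * √n := by
    apply lt_of_pow_lt_pow_left₀ 2 (by
      have : 0 ≤ β - hg := by linarith
      positivity)
    rw [mul_pow, hsq]
    nlinarith
  have h3 : ‖z‖ - ‖y‖ ≤ ‖y - z‖ := by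
    rw [norm_sub_rev]
    exact norm_sub_norm_le z y
  have h4 : ‖y‖ - ‖z‖ ≤ ‖y - z‖ := norm_sub_norm_le y z
  constructor
  · nlinarith
  · nlinarith

/-- **Bound for spherical codes from one-site data.** -/
theorem code_bound (iidw : IIDw) {Ω : Type} [Fintype Ω] [DecidableEq Ω] {q : ℕ}
    (s : Site Ω (Fin q)) {a0 hg α β sd : ℝ} (hhg : 0 < hg) (hα0 : 0 ≤ α)
    (hα : α + hg < √(∑ x, s.P x * (a0 + hg * (x : ℝ)) ^ 2))
    (hβ : √(∑ x, s.P x * (a0 + hg * (x : ℝ)) ^ 2) + hg < β) (hsd : 0 ≤ sd) (hpos : hg < α * sd)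
    (hE : s.E (fun (_ : Unit) (x : Fin q) => hg * (x : ℝ)) < (α * sd - hg) ^ 2)
    {ε : ℝ} (hε : 0 < ε) :
    ∃ n0 : ℕ, ∀ n ≥ n0, ∀ C : Finset (EE n), (∀ c ∈ C, ‖c‖ = 1) →
      (∀ c ∈ C, ∀ c' ∈ C, c ≠ c' → sd ≤ dist c c') →
      (C.card : ℝ) ≤
        rexp (n * (1 / 2 * log (2 * π * rexp 1) + log β - log hg - s.h + s.S + ε)) := by
  set M2 := ∑ x, s.P x * (a0 + hg * (x : ℝ)) ^ 2 with hM2
  have hM20 : 0 ≤ M2 := Finset.sum_nonneg fun x _ => mul_nonneg (site_P_nonneg s x) (sq_nonneg _)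
  have hsM : √M2 ^ 2 = M2 := Real.sq_sqrt hM20
  have hsM0 : 0 ≤ √M2 := Real.sqrt_nonneg _
  have hβpos : 0 < β := by linarith
  set E0 := s.E (fun (_ : Unit) (x : Fin q) => hg * (x : ℝ)) with hE0
  set D0 := (α * sd - hg) ^ 2 with hD0
  have hD0pos : 0 < D0 := by
    have : 0 < α * sd - hg := by linarith
    positivity
  -- choice of δ
  have hd1 : 0 < M2 - (α + hg) ^ 2 := by nlinarith
  have hd2 : 0 < (β - hg) ^ 2 - M2 := by nlinarith
  set δ := min (M2 - (α + hg) ^ 2) ((β - hg) ^ 2 - M2) with hδ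
  have hδ0 : 0 < δ := lt_min hd1 hd2
  have hδ1 : (α + hg) ^ 2 ≤ M2 - δ := by have := min_le_left (M2 - (α + hg) ^ 2) ((β - hg) ^ 2 - M2); linarith
  have hδ2 : M2 + δ ≤ (β - hg) ^ 2 := by have := min_le_right (M2 - (α + hg) ^ 2) ((β - hg) ^ 2 - M2); linarith
  -- choice of ε'
  obtain ⟨e, he0, heε, heD⟩ : ∃ e : ℝ, 0 < e ∧ e ≤ ε ∧ E0 + e < D0 * (1 - 2 * e) := by
    have h1 : 0 < (D0 - E0) / (2 * (2 * D0 + 1)) := by
      apply div_pos (by linarith) (by positivity)
    refine ⟨min ε ((D0 - E0) / (2 * (2 * D0 + 1))), lt_min hε h1, min_le_left _ _, ?_⟩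
    have h2 := min_le_right ε ((D0 - E0) / (2 * (2 * D0 + 1)))
    set e := min ε ((D0 - E0) / (2 * (2 * D0 + 1))) with he
    have h3 : e * (2 * (2 * D0 + 1)) ≤ D0 - E0 := by
      rwa [le_div_iff₀ (by positivity)] at h2
    have h4 : 0 < e := lt_min hε h1
    nlinarith
  obtain ⟨n1, hn1⟩ := iidw Ω (Fin q) Unit s (fun _ x => hg * (x : ℝ)) e he0
  set V := ∑ y, s.P y * ((a0 + hg * (y : ℝ)) ^ 2 - ∑ y', s.P y' * (a0 + hg * (y' : ℝ)) ^ 2) ^ 2 with hV
  obtain ⟨n2, hn2⟩ := exists_nat_gt (V / (δ ^ 2 * e))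
  refine ⟨max (max n1 n2) 1, fun n hn C hu hdist => ?_⟩
  have hnn1 : n1 ≤ n := le_trans (le_trans (le_max_left _ _) (le_max_left _ _)) hn
  have hnn2 : n2 ≤ n := le_trans (le_trans (le_max_right _ _) (le_max_left _ _)) hn
  have hn0 : 0 < n := le_trans (le_max_right _ _) hn
  have hn' : (0:ℝ) < n := by exact_mod_cast hn0
  have hsn : 0 < √(n:ℝ) := Real.sqrt_pos.2 hn'
  have hsq : √(n:ℝ) ^ 2 = n := Real.sq_sqrt hn'.le
  by_contra hcon
  push Not at hcon
  have hcard : (0:ℝ) < C.card := lt_trans (exp_pos _) hcon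
  have hC : C.Nonempty := by
    rw [← Finset.card_pos]; exact_mod_cast hcard
  have hb : 0 < β * √n := by positivity
  have hgs : hg * √n < (α * √n) * sd := by nlinarith
  obtain ⟨w, hw0, hw1, hwd, hwt⟩ := shell_cover (q := q) hn0 C hC hu (a := α * √n) (b := β * √n)
    (a0 := a0) hsd hdist hb hhg hgs
  have hgn : 0 < hg ^ n := pow_pos hhg n
  have hcellfin : ∀ x : Fin n → Fin q, (volume (cell a0 hg x)).toReal = hg ^ n := by
    intro x
    rw [volume_cell hhg, ENNReal.toReal_ofReal hgn.le]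
  have hcellne : ∀ x : Fin n → Fin q, volume (cell a0 hg x) ≠ ∞ := by
    intro x
    rw [volume_cell hhg]; exact ENNReal.ofReal_ne_top
  have hle1 : ∀ x, ∑ S ∈ Finset.univ.filter (fun S : Finset (Fin n → Fin q) => x ∈ S), w S ≤ 1 := by
    intro x
    rw [hw1, div_le_one hgn, ← hcellfin x]
    exact ENNReal.toReal_mono (hcellne x) (measure_mono inter_subset_left)
  have hgood : ∀ x : Fin n → Fin q, |∑ k, (a0 + hg * (x k : ℝ)) ^ 2 - n * M2| < n * δ →
      ∑ S ∈ Finset.univ.filter (fun S : Finset (Fin n → Fin q) => x ∈ S), w S = 1 := by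
    intro x hx
    rw [hw1, inter_eq_left.2 (cell_subset_shell hn0 hhg (by linarith) hδ1 hδ2 x hx), hcellfin,
      div_self hgn.ne']
  have hmain := hn1 n hnn1 w (((α * √n) * sd - hg * √n) ^ 2) (sq_nonneg _) hw0 hle1
    (by
      intro S hS x hx y hy hxy
      simpa using hwd S hS x hx y hy hxy) (by
      rw [hwt, div_le_iff₀ (by positivity)]
      have h1 : (volume (shell n (α * √n) (β * √n))).toReal ≤
          rexp (n * (1 / 2 * log (2 * π * rexp 1) + log β)) := by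
        refine le_trans ?_ (volume_ball_le hn0 hβpos)
        apply ENNReal.toReal_mono (measure_ball_lt_top.ne)
        apply measure_mono
        intro y hy
        rw [mem_ball_zero_iff]
        exact hy.2
      refine h1.trans ?_
      have h2 : hg ^ n = rexp (n * log hg) := by
        rw [mul_comm, ← Real.rpow_def_of_pos hhg, Real.rpow_natCast]
      have h3 : rexp (n * (1 / 2 * log (2 * π * rexp 1) + log β)) =
          rexp (n * (s.h - s.S - ε)) *
          (rexp (n * (1 / 2 * log (2 * π * rexp 1) + log β - log hg - s.h + s.S + ε)) *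
            rexp (n * log hg)) := by
        rw [← Real.exp_add, ← Real.exp_add]
        congr 1; ring
      rw [h3, h2]
      have h4 : rexp (n * (s.h - s.S - ε)) ≤ rexp (n * (s.h - s.S - e)) := by
        apply Real.exp_le_exp.2
        apply mul_le_mul_of_nonneg_left _ hn'.le
        linarith
      exact mul_le_mul h4 (mul_le_mul_of_nonneg_right hcon.le (exp_pos _).le) (by positivity)
        (exp_pos _).le)
  -- bound of the deficit
  have hPn : ∀ x : Fin n → Fin q, 0 ≤ ∏ k, s.P (x k) :=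
    fun x => Finset.prod_nonneg fun k _ => site_P_nonneg s _
  have hdef : ∑ x : Fin n → Fin q, (∏ k, s.P (x k)) *
      (1 - ∑ S ∈ Finset.univ.filter (fun S : Finset (Fin n → Fin q) => x ∈ S), w S) ≤ e := by
    classical
    set B : Finset (Fin n → Fin q) := Finset.univ.filter fun x =>
      n * δ ≤ |∑ k, (a0 + hg * (x k : ℝ)) ^ 2 - n * M2| with hB
    have h1 : ∑ x : Fin n → Fin q, (∏ k, s.P (x k)) *
        (1 - ∑ S ∈ Finset.univ.filter (fun S : Finset (Fin n → Fin q) => x ∈ S), w S) ≤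
        ∑ x ∈ B, ∏ k, s.P (x k) := by
      rw [hB, Finset.sum_filter]
      apply Finset.sum_le_sum
      intro x _
      split_ifs with hx
      · have h2 : 0 ≤ ∑ S ∈ Finset.univ.filter (fun S : Finset (Fin n → Fin q) => x ∈ S), w S :=
          Finset.sum_nonneg fun S _ => hw0 S
        have := hPn x
        nlinarith
      · rw [hgood x (not_le.1 hx)]
        simp
    refine h1.trans ?_
    have hBx : ∀ x ∈ B, n * δ ≤ |∑ k, (fun y : Fin q => (a0 + hg * (y : ℝ)) ^ 2) (x k) -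
        n * ∑ y, s.P y * (fun y : Fin q => (a0 + hg * (y : ℝ)) ^ 2) y| := by
      intro x hx
      have hx2 := (Finset.mem_filter.1 hx).2
      rw [hM2] at hx2
      simpa only using hx2
    have h2 := cheb hn0 s.P (site_P_nonneg s) (site_P_sum s) (fun y : Fin q => (a0 + hg * (y : ℝ)) ^ 2)
      hδ0 B hBx
    have h2' : ∑ x ∈ B, ∏ k, s.P (x k) ≤ V / (n * δ ^ 2) := by
      rw [hV]; simpa only using h2
    refine h2'.trans ?_
    rw [div_le_iff₀ (by positivity)]
    have h3 : V / (δ ^ 2 * e) < n := lt_of_lt_of_le hn2 (by exact_mod_cast hnn2)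
    rw [div_lt_iff₀ (by positivity)] at h3
    nlinarith
  -- conclusion
  have hd : ((α * √n) * sd - hg * √n) ^ 2 = n * D0 := by
    calc ((α * √n) * sd - hg * √n) ^ 2 = √(n:ℝ) ^ 2 * (α * sd - hg) ^ 2 := by ring
      _ = n * D0 := by rw [hsq]
  rw [hd] at hmain
  have h5 : n * D0 * (1 - 2 * e) ≤ n * (E0 + e) := by
    refine le_trans ?_ hmain
    apply mul_le_mul_of_nonneg_left _ (by positivity)
    linarith
  nlinarith

/-- the energy does not change when a constant is added to the position function -/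
theorem site_E_shift {Ω X I : Type} [Fintype Ω] [DecidableEq Ω] [Fintype I] (s : Site Ω X)
    (f : I → X → ℝ) (m : I → ℝ) : s.E (fun i x => m i + f i x) = s.E f := by
  unfold Site.E
  congr 1
  refine Finset.sum_congr rfl fun i _ => ?_
  have hu : ∀ a, ∑ ω, s.u a ω ^ 2 = 1 := by
    intro a
    have := s.u_orth a a
    rw [if_pos rfl] at this
    rw [← this]
    exact Finset.sum_congr rfl fun ω _ => sq _
  have h1 : ∀ a b, ∑ ω, s.u a ω * (m i + f i (s.pos ω)) * s.u b ω =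
      (∑ ω, s.u a ω * f i (s.pos ω) * s.u b ω) + if a = b then m i else 0 := by
    intro a b
    have h2 : (if a = b then m i else 0) = m i * ∑ ω, s.u a ω * s.u b ω := by
      rw [s.u_orth]; simp
    rw [h2, Finset.mul_sum, ← Finset.sum_add_distrib]
    exact Finset.sum_congr rfl fun ω _ => by ring
  have h3 : ∀ a, ∑ ω, s.u a ω ^ 2 * (m i + f i (s.pos ω)) ^ 2 =
      ∑ ω, s.u a ω ^ 2 * f i (s.pos ω) ^ 2 + 2 * m i * (∑ ω, s.u a ω * f i (s.pos ω) * s.u a ω) +
        m i ^ 2 := by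
    intro a
    have h4 : m i ^ 2 = m i ^ 2 * ∑ ω, s.u a ω ^ 2 := by rw [hu, mul_one]
    rw [h4, Finset.mul_sum, Finset.mul_sum, ← Finset.sum_add_distrib, ← Finset.sum_add_distrib]
    exact Finset.sum_congr rfl fun ω _ => by ring
  have h5 : ∀ a b, √(s.lam a * s.lam b) *
      ((∑ ω, s.u a ω * f i (s.pos ω) * s.u b ω) + if a = b then m i else 0) ^ 2 =
      √(s.lam a * s.lam b) * (∑ ω, s.u a ω * f i (s.pos ω) * s.u b ω) ^ 2 +
        if a = b then s.lam a * (2 * m i * (∑ ω, s.u a ω * f i (s.pos ω) * s.u a ω) + m i ^ 2)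
          else 0 := by
    intro a b
    split_ifs with h
    · subst h
      rw [Real.sqrt_mul_self (s.lam_nonneg a)]
      ring
    · ring
  simp_rw [h1, h3, h5, Finset.sum_add_distrib]
  simp only [Finset.sum_ite_eq, Finset.mem_univ, if_true, mul_add, Finset.sum_add_distrib]
  ring

end Pool.Agent.H703R2.LP
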